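import Mathlib

set_option autoImplicit false

/-!
# Every stable matching mechanism has RAT-degree at most three
-/

namespace Pool.Agent.Results.MP_35fdad_lc.NoLinearDegree

universe u v

/-- A strict linear order on `X`; `rel a b` means that `a` is preferred to `b`. -/
@[ext]
structure StrictOrder (X : Type u) where
  /-- the preference relation -/
  rel : X → X → Prop
  irrefl : ∀ a, ¬ rel a a
  trans : ∀ a b c, rel a b → rel b c → rel a c
  total : ∀ a b, a ≠ b → rel a b ∨ rel b a

variable {M : Type u} {W : Type u}

/-- The possible partners of an agent of `M ⊕ W`; `none` is `φ` (being unmatched). -/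
abbrev Alt (M W : Type u) : M ⊕ W → Type u
  | Sum.inl _ => Option W
  | Sum.inr _ => Option M

/-- A profile: every agent reports a strict linear order of its possible partners and `φ`. -/
abbrev Profile (M W : Type u) : Type u := ∀ a : M ⊕ W, StrictOrder (Alt M W a)

/-- The outcome `φ`. -/
def unmatched : ∀ a : M ⊕ W, Alt M W a
  | Sum.inl _ => none
  | Sum.inr _ => none

/-- A matching. -/
structure Matching (M W : Type u) where
  /-- the partner of an agent -/
  partner : ∀ a : M ⊕ W, Alt M W a
  recip : ∀ (m : M) (w : W),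
    partner (Sum.inl m) = (some w : Option W) ↔ partner (Sum.inr w) = (some m : Option M)

/-- Stability: nobody prefers `φ` to its partner and there is no blocking pair. -/
def Stable (P : Profile M W) (μ : Matching M W) : Prop :=
  (∀ a, ¬ (P a).rel (unmatched a) (μ.partner a)) ∧
  ∀ (m : M) (w : W), ¬ ((P (Sum.inl m)).rel (some w : Option W) (μ.partner (Sum.inl m)) ∧
    (P (Sum.inr w)).rel (some m : Option M) (μ.partner (Sum.inr w)))

/-- A stable matching mechanism. -/
structure StableMechanism (M W : Type u) where
  /-- the matching chosen for a profile of reports -/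
  run : Profile M W → Matching M W
  stable : ∀ P, Stable P (run P)

open Classical in
/-- `F` is `k`-known-agents safely manipulable: for some agent `i`, true order and reports `P_K` of
a set `K` of `k` other agents (all given by `P`; the reports of the unknown agents in `P` play no
role) there is a report `r ≠ P i` which is safe and profitable. Here `Q` is any profile which
agrees with `P` on `K` and at `i`. -/
def SafelyManipulable (F : StableMechanism M W) (k : ℕ) : Prop :=
  ∃ (i : M ⊕ W) (K : Finset (M ⊕ W)) (P : Profile M W) (r : StrictOrder (Alt M W i)),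
    i ∉ K ∧ K.card = k ∧ r ≠ P i ∧
    (∀ Q : Profile M W, Q i = P i → (∀ j ∈ K, Q j = P j) →
      ¬ (P i).rel ((F.run Q).partner i) ((F.run (Function.update Q i r)).partner i)) ∧
    (∃ Q : Profile M W, Q i = P i ∧ (∀ j ∈ K, Q j = P j) ∧
      (P i).rel ((F.run (Function.update Q i r)).partner i) ((F.run Q).partner i))

/-- The RAT-degree: the least `k < n` for which `F` is `k`-known-agents safely manipulable, and
`n = |M| + |W|` if there is none. -/
noncomputable def ratDegree [Fintype M] [Fintype W] (F : StableMechanism M W) : ℕ :=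
  sInf ({k | k < Fintype.card M + Fintype.card W ∧ SafelyManipulable F k} ∪
    {Fintype.card M + Fintype.card W})

/-! ### Orders with a prescribed head -/

section Orders

variable {X : Type u}

/-- An order from an injective rank function (small rank is good). -/
def ofRank (f : X → ℕ) (hf : Function.Injective f) : StrictOrder X where
  rel a b := f a < f b
  irrefl _ := lt_irrefl _
  trans _ _ _ := lt_trans
  total _ _ h := lt_or_gt_of_ne fun h' => h (hf h')

theorem exists_enum [Finite X] : ∃ e : X → ℕ, Function.Injective e := by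
  obtain ⟨n, ⟨f⟩⟩ := Finite.exists_equiv_fin X
  exact ⟨fun x => f x, fun x y h => f.injective (Fin.ext h)⟩

/-- There is an order `a > b > φ > everything else`. -/
theorem exists_two [Finite X] {a b : X} (hab : a ≠ b) : ∃ o : StrictOrder (Option X),
    o.rel (some a) (some b) ∧ o.rel (some b) none ∧
      ∀ x, x ≠ a → x ≠ b → o.rel none (some x) := by
  classical
  obtain ⟨e, he⟩ := exists_enum (X := X)
  let f : Option X → ℕ := fun o => match o with
    | none => 2
    | some x => if x = a then 0 else if x = b then 1 else 3 + e x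
  have hf : Function.Injective f := by
    intro x y h
    cases x with
    | none =>
      cases y with
      | none => rfl
      | some y =>
        exfalso
        simp only [f] at h
        (split_ifs at h) <;> omega
    | some x =>
      cases y with
      | none =>
        exfalso
        simp only [f] at h
        (split_ifs at h) <;> omega
      | some y =>
        simp only [f] at h
        congr 1
        by_cases h1 : x = a <;> by_cases h2 : y = a
        · rw [h1, h2]
        · rw [if_pos h1, if_neg h2] at h; (split_ifs at h) <;> omega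
        · rw [if_neg h1, if_pos h2] at h; (split_ifs at h) <;> omega
        · rw [if_neg h1, if_neg h2] at h
          by_cases h3 : x = b <;> by_cases h4 : y = b
          · rw [h3, h4]
          · rw [if_pos h3, if_neg h4] at h; omega
          · rw [if_neg h3, if_pos h4] at h; omega
          · rw [if_neg h3, if_neg h4] at h; exact he (by omega)
  refine ⟨ofRank f hf, ?_, ?_, fun x hx hx' => ?_⟩
  · simp [ofRank, f, hab.symm]
  · simp [ofRank, f, hab.symm]
  · simp only [ofRank, f, if_neg hx, if_neg hx']; omega

/-- There is an order `a > φ > everything else`. -/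
theorem exists_one [Finite X] (a : X) : ∃ o : StrictOrder (Option X),
    o.rel (some a) none ∧ ∀ x, x ≠ a → o.rel none (some x) := by
  classical
  obtain ⟨e, he⟩ := exists_enum (X := X)
  let f : Option X → ℕ := fun o => match o with
    | none => 1
    | some x => if x = a then 0 else 2 + e x
  have hf : Function.Injective f := by
    intro x y h
    cases x with
    | none =>
      cases y with
      | none => rfl
      | some y =>
        exfalso
        simp only [f] at h
        (split_ifs at h) <;> omega
    | some x =>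
      cases y with
      | none =>
        exfalso
        simp only [f] at h
        (split_ifs at h) <;> omega
      | some y =>
        simp only [f] at h
        congr 1
        by_cases h1 : x = a <;> by_cases h2 : y = a
        · rw [h1, h2]
        · rw [if_pos h1, if_neg h2] at h; omega
        · rw [if_neg h1, if_pos h2] at h; omega
        · rw [if_neg h1, if_neg h2] at h; exact he (by omega)
  refine ⟨ofRank f hf, ?_, fun x hx => ?_⟩
  · simp [ofRank, f]
  · simp only [ofRank, f, if_neg hx]; omega

/-- `a > b > φ > everything else`. -/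
def Two (o : StrictOrder (Option X)) (a b : X) : Prop :=
  o.rel (some a) (some b) ∧ o.rel (some b) none ∧ ∀ x, x ≠ a → x ≠ b → o.rel none (some x)

/-- `a > φ > everything else`. -/
def One (o : StrictOrder (Option X)) (a : X) : Prop :=
  o.rel (some a) none ∧ ∀ x, x ≠ a → o.rel none (some x)

theorem Two.cases {o : StrictOrder (Option X)} {a b : X} (h : Two o a b) {y : Option X}
    (hy : ¬ o.rel none y) : y = some a ∨ y = some b ∨ y = none := by
  cases y with
  | none => exact Or.inr (Or.inr rfl)
  | some x =>
    by_cases h1 : x = a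
    · exact Or.inl (by rw [h1])
    · by_cases h2 : x = b
      · exact Or.inr (Or.inl (by rw [h2]))
      · exact absurd (h.2.2 x h1 h2) hy

theorem One.cases {o : StrictOrder (Option X)} {a : X} (h : One o a) {y : Option X}
    (hy : ¬ o.rel none y) : y = some a ∨ y = none := by
  cases y with
  | none => exact Or.inr rfl
  | some x =>
    by_cases h1 : x = a
    · exact Or.inl (by rw [h1])
    · exact absurd (h.2 x h1) hy

/-- The first choice is preferred to every other acceptable outcome. -/
theorem Two.top {o : StrictOrder (Option X)} {a b : X} (h : Two o a b) {y : Option X}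
    (hy : ¬ o.rel none y) (hne : y ≠ some a) : o.rel (some a) y := by
  rcases h.cases hy with rfl | rfl | rfl
  · exact absurd rfl hne
  · exact h.1
  · exact o.trans _ _ _ h.1 h.2.1

end Orders

/-! ### The small market -/

section Market

variable {P : Profile M W} {μ : Matching M W} {m₁ m₂ : M} {w₁ w₂ : W}

theorem stable_cases (hm : m₁ ≠ m₂) (hw : w₁ ≠ w₂)
    (h1 : Two (X := W) (P (Sum.inl m₁)) w₁ w₂) (h2 : Two (X := W) (P (Sum.inl m₂)) w₂ w₁)
    (h3 : Two (X := M) (P (Sum.inr w₁)) m₂ m₁) (h4 : Two (X := M) (P (Sum.inr w₂)) m₁ m₂)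
    (hs : Stable P μ) :
    (μ.partner (Sum.inl m₁) = (some w₁ : Option W) ∧
      μ.partner (Sum.inr w₁) = (some m₁ : Option M)) ∨
    (μ.partner (Sum.inl m₁) = (some w₂ : Option W) ∧
      μ.partner (Sum.inr w₁) = (some m₂ : Option M)) := by
  obtain ⟨hir, hbl⟩ := hs
  have i1 := h1.cases (hir (Sum.inl m₁))
  have i2 := h2.cases (hir (Sum.inl m₂))
  have i3 := h3.cases (hir (Sum.inr w₁))
  have i4 := h4.cases (hir (Sum.inr w₂))
  rcases i1 with e1 | e1 | e1
  · exact Or.inl ⟨e1, (μ.recip _ _).1 e1⟩
  · right
    refine ⟨e1, ?_⟩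
    rcases i2 with e2 | e2 | e2
    · have a := (μ.recip _ _).1 e1
      have b := (μ.recip _ _).1 e2
      rw [a] at b
      exact absurd (Option.some.inj b) hm
    · exact (μ.recip _ _).1 e2
    · exfalso
      rcases i3 with e3 | e3 | e3
      · have := (μ.recip _ _).2 e3
        rw [e2] at this
        exact absurd this (by simp)
      · have := (μ.recip _ _).2 e3
        rw [e1] at this
        exact absurd (Option.some.inj this) hw.symm
      · refine hbl m₂ w₁ ⟨?_, ?_⟩
        · rw [e2]; exact h2.2.1
        · rw [e3]; exact (P (Sum.inr w₁)).trans _ _ _ h3.1 h3.2.1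
  · exfalso
    refine hbl m₁ w₂ ⟨?_, h4.top (hir (Sum.inr w₂)) ?_⟩
    · rw [e1]; exact h1.2.1
    · intro h
      have := (μ.recip _ _).2 h
      rw [e1] at this
      exact absurd this (by simp)

theorem stable_woman (hm : m₁ ≠ m₂) (h1 : Two (X := W) (P (Sum.inl m₁)) w₁ w₂)
    (h2 : Two (X := W) (P (Sum.inl m₂)) w₂ w₁)
    (h3 : One (X := M) (P (Sum.inr w₁)) m₂) (h4 : Two (X := M) (P (Sum.inr w₂)) m₁ m₂)
    (hs : Stable P μ) : μ.partner (Sum.inr w₁) = (some m₂ : Option M) := by
  obtain ⟨hir, hbl⟩ := hs
  rcases h3.cases (hir (Sum.inr w₁)) with e3 | e3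
  · exact e3
  exfalso
  rcases h1.cases (hir (Sum.inl m₁)) with e1 | e1 | e1
  · have := (μ.recip _ _).1 e1
    rw [e3] at this
    exact absurd this (by simp)
  · rcases h2.cases (hir (Sum.inl m₂)) with e2 | e2 | e2
    · have a := (μ.recip _ _).1 e1
      have b := (μ.recip _ _).1 e2
      rw [a] at b
      exact absurd (Option.some.inj b) hm
    · have := (μ.recip _ _).1 e2
      rw [e3] at this
      exact absurd this (by simp)
    · refine hbl m₂ w₁ ⟨?_, ?_⟩
      · rw [e2]; exact h2.2.1
      · rw [e3]; exact h3.1
  · refine hbl m₁ w₂ ⟨?_, h4.top (hir (Sum.inr w₂)) ?_⟩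
    · rw [e1]; exact h1.2.1
    · intro h
      have := (μ.recip _ _).2 h
      rw [e1] at this
      exact absurd this (by simp)

theorem stable_man (hw : w₁ ≠ w₂) (h1 : One (X := W) (P (Sum.inl m₁)) w₁)
    (h2 : Two (X := W) (P (Sum.inl m₂)) w₂ w₁)
    (h3 : Two (X := M) (P (Sum.inr w₁)) m₂ m₁) (h4 : Two (X := M) (P (Sum.inr w₂)) m₁ m₂)
    (hs : Stable P μ) : μ.partner (Sum.inl m₁) = (some w₁ : Option W) := by
  obtain ⟨hir, hbl⟩ := hs
  rcases h1.cases (hir (Sum.inl m₁)) with e1 | e1
  · exact e1
  exfalso
  rcases h3.cases (hir (Sum.inr w₁)) with e3 | e3 | e3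
  · -- `w₁` is matched to `m₂`; then `w₂` is single and blocks with `m₂`
    have e2 := (μ.recip _ _).2 e3
    rcases h4.cases (hir (Sum.inr w₂)) with e4 | e4 | e4
    · have := (μ.recip _ _).2 e4
      rw [e1] at this
      exact absurd this (by simp)
    · have := (μ.recip _ _).2 e4
      rw [e2] at this
      exact absurd (Option.some.inj this) hw
    · refine hbl m₂ w₂ ⟨?_, ?_⟩
      · rw [e2]; exact h2.1
      · rw [e4]; exact h4.2.1
  · have := (μ.recip _ _).2 e3
    rw [e1] at this
    exact absurd this (by simp)
  · refine hbl m₁ w₁ ⟨?_, ?_⟩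
    · rw [e1]; exact h1.1
    · rw [e3]; exact h3.2.1

end Market

/-- Every stable matching mechanism with at least two agents on each side is
`3`-known-agents safely manipulable. -/
theorem manipulable [Finite M] [Finite W] (F : StableMechanism M W) {m₁ m₂ : M} {w₁ w₂ : W}
    (hm : m₁ ≠ m₂) (hw : w₁ ≠ w₂) : SafelyManipulable F 3 := by
  classical
  obtain ⟨a1, ha1⟩ := exists_two hw
  obtain ⟨a2, ha2⟩ := exists_two hw.symm
  obtain ⟨b1, hb1⟩ := exists_two hm.symm
  obtain ⟨b2, hb2⟩ := exists_two hm
  obtain ⟨a', ha'⟩ := exists_one w₁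
  obtain ⟨b', hb'⟩ := exists_one m₂
  -- the profile
  let P : Profile M W := fun a => match a with
    | Sum.inl m => if m = m₁ then a1 else a2
    | Sum.inr w => if w = w₁ then b1 else b2
  have hP1 : P (Sum.inl m₁) = a1 := by simp [P]
  have hP2 : P (Sum.inl m₂) = a2 := by simp [P, hm.symm]
  have hP3 : P (Sum.inr w₁) = b1 := by simp [P]
  have hP4 : P (Sum.inr w₂) = b2 := by simp [P, hw.symm]
  by_cases hcase : ∃ Q : Profile M W, Q (Sum.inl m₁) = P (Sum.inl m₁) ∧
      Q (Sum.inl m₂) = P (Sum.inl m₂) ∧ Q (Sum.inr w₁) = P (Sum.inr w₁) ∧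
      Q (Sum.inr w₂) = P (Sum.inr w₂) ∧
      (F.run Q).partner (Sum.inr w₁) = (some m₁ : Option M)
  · -- `w₁` manipulates
    have key : ∀ Q : Profile M W, Q (Sum.inr w₁) = P (Sum.inr w₁) →
        (∀ j ∈ ({Sum.inl m₁, Sum.inl m₂, Sum.inr w₂} : Finset (M ⊕ W)), Q j = P j) →
        (F.run (Function.update Q (Sum.inr w₁) b')).partner (Sum.inr w₁) =
          (some m₂ : Option M) := by
      intro Q _ hQ
      have q1 := hQ (Sum.inl m₁) (by simp)
      have q2 := hQ (Sum.inl m₂) (by simp)
      have q4 := hQ (Sum.inr w₂) (by simp)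
      refine stable_woman (w₂ := w₂) hm ?_ ?_ ?_ ?_ (F.stable _)
      · rw [Function.update_of_ne (by simp), q1, hP1]; exact ha1
      · rw [Function.update_of_ne (by simp), q2, hP2]; exact ha2
      · rw [Function.update_self]; exact hb'
      · rw [Function.update_of_ne (by simp [hw.symm]), q4, hP4]; exact hb2
    refine ⟨Sum.inr w₁, {Sum.inl m₁, Sum.inl m₂, Sum.inr w₂}, P, b', ?_, ?_, ?_, ?_, ?_⟩
    · simp [hw]
    · rw [Finset.card_insert_of_notMem (by simp [hm]), Finset.card_insert_of_notMem (by simp),
        Finset.card_singleton]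
    · rw [hP3]
      intro h
      have h1 := hb'.2 m₁ hm
      rw [h] at h1
      exact b1.irrefl _ (b1.trans _ _ _ h1 hb1.2.1)
    · intro Q hQ hQK
      have hcl := key Q hQ hQK
      rw [show (F.run (Function.update Q (Sum.inr w₁) b')).partner (Sum.inr w₁) =
        (some m₂ : Option M) by convert hcl]
      rw [hP3]
      intro hrel
      -- nothing is better than the first choice
      have hst := (F.stable Q).1 (Sum.inr w₁)
      rw [hQ, hP3] at hst
      by_cases hne : (F.run Q).partner (Sum.inr w₁) = (some m₂ : Option M)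
      · rw [hne] at hrel; exact b1.irrefl _ hrel
      · exact b1.irrefl _ (b1.trans _ _ _ (Two.top hb1 hst hne) hrel)
    · obtain ⟨Q, q1, q2, q3, q4, q5⟩ := hcase
      have hQK : ∀ j ∈ ({Sum.inl m₁, Sum.inl m₂, Sum.inr w₂} : Finset (M ⊕ W)), Q j = P j := by
        intro j hj
        simp only [Finset.mem_insert, Finset.mem_singleton] at hj
        rcases hj with rfl | rfl | rfl
        · exact q1
        · exact q2
        · exact q4
      refine ⟨Q, q3, hQK, ?_⟩
      have hcl := key Q q3 hQK
      rw [show (F.run (Function.update Q (Sum.inr w₁) b')).partner (Sum.inr w₁) =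
        (some m₂ : Option M) by convert hcl, q5, hP3]
      exact hb1.1
  · -- `m₁` manipulates
    push Not at hcase
    have key : ∀ Q : Profile M W, Q (Sum.inl m₁) = P (Sum.inl m₁) →
        (∀ j ∈ ({Sum.inl m₂, Sum.inr w₁, Sum.inr w₂} : Finset (M ⊕ W)), Q j = P j) →
        (F.run (Function.update Q (Sum.inl m₁) a')).partner (Sum.inl m₁) =
          (some w₁ : Option W) ∧
        (F.run Q).partner (Sum.inl m₁) = (some w₂ : Option W) := by
      intro Q hQ hQK
      have q2 := hQK (Sum.inl m₂) (by simp)
      have q3 := hQK (Sum.inr w₁) (by simp)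
      have q4 := hQK (Sum.inr w₂) (by simp)
      constructor
      · refine stable_man (m₂ := m₂) hw ?_ ?_ ?_ ?_ (F.stable _)
        · rw [Function.update_self]; exact ha'
        · rw [Function.update_of_ne (by simp [hm.symm]), q2, hP2]; exact ha2
        · rw [Function.update_of_ne (by simp), q3, hP3]; exact hb1
        · rw [Function.update_of_ne (by simp), q4, hP4]; exact hb2
      · have hc := stable_cases (P := Q) hm hw (by rw [hQ, hP1]; exact ha1)
          (by rw [q2, hP2]; exact ha2) (by rw [q3, hP3]; exact hb1)
          (by rw [q4, hP4]; exact hb2) (F.stable Q)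
        rcases hc with hc | hc
        · exact absurd hc.2 (hcase Q hQ q2 q3 q4)
        · exact hc.1
    refine ⟨Sum.inl m₁, {Sum.inl m₂, Sum.inr w₁, Sum.inr w₂}, P, a', ?_, ?_, ?_, ?_, ?_⟩
    · simp [hm]
    · rw [Finset.card_insert_of_notMem (by simp), Finset.card_insert_of_notMem (by simp [hw]),
        Finset.card_singleton]
    · rw [hP1]
      intro h
      have h1 := ha'.2 w₂ hw.symm
      rw [h] at h1
      exact a1.irrefl _ (a1.trans _ _ _ h1 ha1.2.1)
    · intro Q hQ hQK
      have hcl := key Q hQ hQK
      rw [show (F.run (Function.update Q (Sum.inl m₁) a')).partner (Sum.inl m₁) =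
        (some w₁ : Option W) by convert hcl.1, hcl.2, hP1]
      intro hrel
      exact a1.irrefl _ (a1.trans _ _ _ ha1.1 hrel)
    · have hcl := key P rfl (fun _ _ => rfl)
      refine ⟨P, rfl, fun _ _ => rfl, ?_⟩
      rw [show (F.run (Function.update P (Sum.inl m₁) a')).partner (Sum.inl m₁) =
        (some w₁ : Option W) by convert hcl.1, hcl.2, hP1]
      exact ha1.1

/-- Every stable matching mechanism with at least two agents on each side has RAT-degree at
most `3`. -/
theorem ratDegree_le [Fintype M] [Fintype W] (hM : 2 ≤ Fintype.card M)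
    (hW : 2 ≤ Fintype.card W) (F : StableMechanism M W) : ratDegree F ≤ 3 := by
  obtain ⟨m₁, m₂, hm⟩ := Fintype.exists_pair_of_one_lt_card (lt_of_lt_of_le one_lt_two hM)
  obtain ⟨w₁, w₂, hw⟩ := Fintype.exists_pair_of_one_lt_card (lt_of_lt_of_le one_lt_two hW)
  exact Nat.sInf_le (Or.inl ⟨by omega, manipulable F hm hw⟩)

/-- **Disproof of Q1**: every stable matching mechanism with at least two agents on each side has
RAT-degree at most `3`, and no family of stable matching mechanisms has RAT-degree `Ω(n)`. -/
theorem result :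
    (∀ (M W : Type u) [Fintype M] [Fintype W], 2 ≤ Fintype.card M → 2 ≤ Fintype.card W →
      ∀ F : StableMechanism M W, ratDegree F ≤ 3) ∧
    (∀ F : ∀ (M W : Type u) [Fintype M] [Fintype W], StableMechanism M W,
      ∀ c : ℝ, 0 < c → ∀ N : ℕ, ∃ (M W : Type u) (_ : Fintype M) (_ : Fintype W),
        N ≤ Fintype.card M + Fintype.card W ∧
        (ratDegree (F M W) : ℝ) < c * ((Fintype.card M : ℝ) + (Fintype.card W : ℝ))) := by
  refine ⟨fun M W _ _ hM hW F => ratDegree_le hM hW F, fun F c hc N => ?_⟩
  obtain ⟨k, hk⟩ := exists_nat_gt (3 / c)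
  refine ⟨ULift (Fin (k + N + 2)), ULift (Fin (k + N + 2)), inferInstance, inferInstance, ?_, ?_⟩
  · simp only [Fintype.card_ulift, Fintype.card_fin]
    omega
  · have h1 := ratDegree_le (M := ULift.{u} (Fin (k + N + 2))) (W := ULift.{u} (Fin (k + N + 2)))
      (by simp) (by simp) (F _ _)
    have h2 : (ratDegree (F (ULift.{u} (Fin (k + N + 2))) (ULift.{u} (Fin (k + N + 2)))) : ℝ)
        ≤ 3 := by exact_mod_cast h1
    simp only [Fintype.card_ulift, Fintype.card_fin]
    push_cast
    rw [div_lt_iff₀ hc] at hk
    have h3 : (0 : ℝ) ≤ N := Nat.cast_nonneg N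
    have h4 : (0 : ℝ) ≤ k := Nat.cast_nonneg k
    nlinarith

end Pool.Agent.Results.MP_35fdad_lc.NoLinearDegree
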